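import Mathlib
import Pool.Agent.NH19.LA.AlgMain

set_option autoImplicit false
set_option linter.unusedSectionVars false

/-!
Generic words, for an arbitrary set of words closed under concatenation (adapted from NH19/LA/AlgMain).
-/

namespace Pool.Agent.NH88.FY

open Function Pool.Agent.NH19.LA

section gen

variable {α K : Type} [Fintype K] [Nonempty K] (B : Beh α K) (Good : List α → Prop)

/-- The generic words. -/
structure Gen (w v : List α) (P : Set K) (E : Set (K × K)) : Prop where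
  w_full : Good w
  mul : ∀ x y, Good x → Good y → Good (x ++ y)
  v_mem : ∃ x, Good x ∧ v = x ++ w
  hP : P = Set.range (B.d w)
  hE : E = B.ph v '' {a | a.1 ∈ P}
  dP : ∀ x, Good x → Set.InjOn (B.d (x ++ w)) P ∧ B.d (x ++ w) '' P = P
  eP : ∀ x, Good x → Set.InjOn (B.ph (x ++ w ++ v)) E
  gP : ∀ x, Good x → Set.InjOn (B.ps P (v ++ (x ++ w))) (B.gs P v)

theorem exists_gen (hmul : ∀ x y, Good x → Good y → Good (x ++ y)) (hex : ∃ x, Good x) :
    ∃ w v P E, Gen B Good w v P E := by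
  classical
  -- the word w
  obtain ⟨w, hw, hmin⟩ := exists_min {w : List α | Good w}
    hex (fun w => (Set.range (B.d w)).ncard)
  have hw' : Good w := hw
  let P : Set K := Set.range (B.d w)
  have hdP : ∀ x, Good x → Set.InjOn (B.d (x ++ w)) P ∧ B.d (x ++ w) '' P = P := by
    intro x hx
    have h1 : Set.range (B.d (w ++ (x ++ w))) = B.d (x ++ w) '' P := by
      rw [← Set.range_comp]
      congr 1
      funext p
      exact B.d_app _ _ _
    apply bij_of_card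
    · rintro _ ⟨p, _, rfl⟩
      rw [B.d_app]
      exact ⟨_, rfl⟩
    · rw [← h1]
      exact hmin _ (hmul _ _ hw' (hmul _ _ hx hw'))
  have hmap : ∀ x, Good x → Set.MapsTo (B.d (x ++ w)) P P := by
    intro x hx p hp
    have := (hdP x hx).2
    rw [← this]
    exact ⟨p, hp, rfl⟩
  -- the word v
  let R : Set (K × K) := {a | a.1 ∈ P}
  obtain ⟨v, ⟨x0, hx0, hv0⟩, hvmin⟩ := exists_min
    {v : List α | ∃ x, Good x ∧ v = x ++ w}
    ⟨w ++ w, w, hw', rfl⟩
    (fun v => (B.ph v '' R).ncard + (B.gs P v).ncard)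
  let E : Set (K × K) := B.ph v '' R
  have hvR : ∀ x, Good x → B.ph (x ++ w) '' R ⊆ R := by
    rintro x hx _ ⟨a, ha, rfl⟩
    exact hmap x hx ha
  have key : ∀ x, Good x →
      (B.ph (x ++ w ++ v) '' E).ncard = E.ncard ∧
      (B.gs P (v ++ (x ++ w) ++ v)).ncard = (B.gs P v).ncard := by
    intro x hx
    have h0 : v ++ (x ++ w) ++ v = (x0 ++ w ++ (x ++ w ++ x0)) ++ w := by
      rw [hv0]
      simp only [List.append_assoc]
    have h00 : Good (x0 ++ w ++ (x ++ w ++ x0)) :=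
      hmul _ _ (hmul _ _ hx0 hw') (hmul _ _ (hmul _ _ hx hw') hx0)
    have h1 := hvmin (v ++ (x ++ w) ++ v) ⟨_, h00, h0⟩
    have h2 : B.ph (v ++ (x ++ w) ++ v) '' R = B.ph (x ++ w ++ v) '' E := by
      show _ = B.ph (x ++ w ++ v) '' (B.ph v '' R)
      rw [Set.image_image]
      refine Set.image_congr fun a _ => ?_
      rw [← B.ph_app]
      simp only [List.append_assoc]
    have h3 : (B.ph (x ++ w ++ v) '' E).ncard ≤ E.ncard := Set.ncard_image_le (Set.toFinite _)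
    have h4 : B.gs P (v ++ (x ++ w) ++ v) ⊆ B.gs P v := by
      rintro a ⟨ha, q, hq⟩
      refine ⟨ha, B.g ((x ++ w) ++ v) (B.d v a.1) q, ?_⟩
      rw [← B.g_app, ← List.append_assoc]
      exact hq
    have h5 : (B.gs P (v ++ (x ++ w) ++ v)).ncard ≤ (B.gs P v).ncard :=
      Set.ncard_le_ncard h4 (Set.toFinite _)
    rw [h2] at h1
    have h6 : E.ncard = (B.ph v '' R).ncard := rfl
    constructor <;> omega
  refine ⟨w, v, P, E, hw', hmul, ⟨x0, hx0, hv0⟩, rfl, rfl, hdP, fun x hx => ?_, fun x hx => ?_⟩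
  · exact Set.injOn_of_ncard_image_eq (key x hx).1 (Set.toFinite _)
  · have h1 : Good (x0 ++ w ++ x) := hmul _ _ (hmul _ _ hx0 hw') hx
    have h2 : v ++ (x ++ w) = (x0 ++ w ++ x) ++ w := by
      rw [hv0]
      simp only [List.append_assoc]
    have hinj : Set.InjOn (B.d (v ++ (x ++ w))) P := by
      rw [h2]
      exact (hdP _ h1).1
    have hmaps : Set.MapsTo (B.d (v ++ (x ++ w))) P P := by
      rw [h2]
      exact hmap _ h1
    have h3 : B.gs P (v ++ (x ++ w) ++ v) ⊆ B.ps P (v ++ (x ++ w)) '' (B.gs P v) := by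
      rintro ⟨p, s⟩ ⟨hp, q, hq⟩
      rw [B.g_app] at hq
      refine ⟨(B.d (v ++ (x ++ w)) p, B.g v (B.d (v ++ (x ++ w)) p) q), ⟨hmaps hp, q, rfl⟩, ?_⟩
      rw [B.ps_eq hinj hp]
      exact Prod.ext rfl hq
    have h4 := Set.ncard_le_ncard h3 (Set.toFinite _)
    rw [(key x hx).2] at h4
    have h5 : (B.ps P (v ++ (x ++ w)) '' (B.gs P v)).ncard ≤ (B.gs P v).ncard :=
      Set.ncard_image_le (Set.toFinite _)
    exact Set.injOn_of_ncard_image_eq (by omega) (Set.toFinite _)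

/-- If `x` is injective in the three senses then a power works. -/
theorem Gen.power {w v : List α} {P : Set K} {E : Set (K × K)}
    (G : Gen B Good w v P E) (x : List α)
    (h0 : Set.InjOn (B.d (x ++ w)) P) (h1 : Set.InjOn (B.ph (x ++ w ++ v)) E)
    (h2 : Set.InjOn (B.ps P (v ++ (x ++ w))) (B.gs P v)) :
    ∃ m, 1 ≤ m ∧ (∀ p, B.d (w ++ v) p = B.d ((w ++ v) ++ pw m (x ++ (w ++ v))) p) ∧
      (∀ p q, B.f (w ++ v) p q = B.f ((w ++ v) ++ pw m (x ++ (w ++ v))) p q) ∧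
      (∀ p q, B.g (w ++ v) p q = B.g ((w ++ v) ++ pw m (x ++ (w ++ v))) p q) := by
  obtain ⟨x0, hx0, hv0⟩ := G.v_mem
  have hwP : ∀ (y : List α) p, B.d (y ++ w) p ∈ P := by
    intro y p
    rw [B.d_app, G.hP]
    exact ⟨_, rfl⟩
  have hvP : ∀ p, B.d v p ∈ P := by
    intro p
    rw [hv0]
    exact hwP _ _
  -- the first map
  have hz : Set.InjOn (B.d (v ++ (x ++ w))) P := by
    intro p hp q hq h
    rw [B.d_app v, B.d_app v] at h
    have h3 := h0 (hvP p) (hvP q) h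
    rw [hv0] at h3
    exact (G.dP x0 hx0).1 hp hq h3
  have hzm : Set.MapsTo (B.d (v ++ (x ++ w))) P P := by
    intro p hp
    rw [B.d_app]
    exact hwP _ _
  obtain ⟨m1, hm1, hd⟩ := exists_iter (Set.toFinite _) hzm hz
  have hem : Set.MapsTo (B.ph (x ++ w ++ v)) E E := by
    intro a ha
    rw [G.hE] at ha ⊢
    rw [B.ph_app]
    exact ⟨_, hwP _ _, rfl⟩
  obtain ⟨m2, hm2, he⟩ := exists_iter (Set.toFinite _) hem h1
  have hgm : Set.MapsTo (B.ps P (v ++ (x ++ w))) (B.gs P v) (B.gs P v) := by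
    rintro ⟨p, s⟩ ⟨hp, q, hq⟩
    have h3 : p ∈ B.d (v ++ (x ++ w)) '' P := by
      have h4 : B.d (v ++ (x ++ w)) '' P = P :=
        (Set.eq_of_subset_of_ncard_le (Set.image_subset_iff.2 hzm)
          (by rw [hz.ncard_image]) (Set.toFinite _))
      rw [h4]
      exact hp
    obtain ⟨r, hr, hrp⟩ := h3
    have hrp' : B.d (v ++ (x ++ w)) r = p := hrp
    rw [← hrp', B.ps_eq hz hr]
    refine ⟨hr, B.g (x ++ w) (B.d v r) s, ?_⟩
    rw [← B.g_app]
  obtain ⟨m3, hm3, hg⟩ := exists_iter (Set.toFinite _) hgm h2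
  refine ⟨m1 * m2 * m3, ?_, ?_⟩
  · have := Nat.mul_pos (Nat.mul_pos hm1 hm2) hm3
    exact this
  have hd' : ∀ p ∈ P, (B.d (v ++ (x ++ w)))^[m1 * m2 * m3] p = p := by
    intro p hp
    rw [mul_assoc]
    exact iter_mul (hd p hp) _
  have he' : ∀ a ∈ E, (B.ph (x ++ w ++ v))^[m1 * m2 * m3] a = a := by
    intro a ha
    have : m1 * m2 * m3 = m2 * (m1 * m3) := by ring
    rw [this]
    exact iter_mul (he a ha) _
  have hg' : ∀ a ∈ B.gs P v, (B.ps P (v ++ (x ++ w)))^[m1 * m2 * m3] a = a := by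
    intro a ha
    have : m1 * m2 * m3 = m3 * (m1 * m2) := by ring
    rw [this]
    exact iter_mul (hg a ha) _
  generalize m1 * m2 * m3 = m at hd' he' hg'
  have hph : ∀ a, B.ph (w ++ v) a = B.ph ((w ++ v) ++ pw m (x ++ (w ++ v))) a := by
    intro a
    rw [B.ph_pw]
    have h3 : B.ph (w ++ v) a ∈ E := by
      rw [G.hE, B.ph_app]
      refine ⟨_, ?_, rfl⟩
      show B.d w a.1 ∈ P
      rw [G.hP]
      exact ⟨_, rfl⟩
    rw [← List.append_assoc, he' _ h3]
  refine ⟨fun p => congrArg Prod.fst (hph (p, p)), fun p q => congrArg Prod.snd (hph (p, q)), ?_⟩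
  intro p q
  have h3 : w ++ v ++ pw m (x ++ (w ++ v)) = w ++ (pw m (v ++ (x ++ w)) ++ v) := by
    rw [← pw_rot]
    simp only [List.append_assoc]
  rw [h3, B.g_app, B.g_app w (pw m (v ++ (x ++ w)) ++ v)]
  have hwp : B.d w p ∈ P := by
    rw [G.hP]
    exact ⟨_, rfl⟩
  have h4 := B.g_pw (v := v) hz hzm m (B.d w p) hwp q
  rw [hd' _ hwp, hg' _ ⟨hwp, q, rfl⟩] at h4
  have h5 : B.g (pw m (v ++ (x ++ w)) ++ v) (B.d w p) q = B.g v (B.d w p) q :=
    congrArg Prod.snd h4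
  rw [h5]

end gen

section wit

variable {α K : Type} [Fintype K] [Nonempty K] (B : Beh α K) (Good : List α → Prop)

/-- The types of the witnesses. -/
abbrev Wit (K : Type) : Type := (K × K) ⊕ ((K × K) × (K × K)) ⊕ (K × K × K) ⊕ K

/-- The property of a witness which depends on the left half. -/
def WA (v : List α) (P : Set K) (E : Set (K × K)) (a : List α) :
    Set (Wit K) := fun t => match t with
  | .inl (u, u') => u ≠ u' ∧ u ∈ B.d a '' P ∧ u' ∈ B.d a '' P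
  | .inr (.inl (u, u')) => u ≠ u' ∧ u ∈ B.ph a '' E ∧ u' ∈ B.ph a '' E
  | .inr (.inr (.inl (m, t, t'))) => t ≠ t' ∧ ∃ p ∈ P, m = B.d (v ++ a) p ∧
      B.g (v ++ a) p t = B.g (v ++ a) p t'
  | .inr (.inr (.inr m)) => ∃ p ∈ P, m = B.d (v ++ a) p

/-- The property of a witness which depends on the right half. -/
def WB (w v : List α) (b : List α) :
    Set (Wit K) := fun t => match t with
  | .inl (u, u') => B.d (b ++ w) u = B.d (b ++ w) u'
  | .inr (.inl (u, u')) => B.ph (b ++ w ++ v) u = B.ph (b ++ w ++ v) u'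
  | .inr (.inr (.inl (m, t, t'))) => ∃ s s', s ∈ Set.range (B.g v (B.d (b ++ w) m)) ∧
      s' ∈ Set.range (B.g v (B.d (b ++ w) m)) ∧ t = B.g (b ++ w) m s ∧ t' = B.g (b ++ w) m s'
  | .inr (.inr (.inr m)) => ∃ s s', s ≠ s' ∧ s ∈ Set.range (B.g v (B.d (b ++ w) m)) ∧
      s' ∈ Set.range (B.g v (B.d (b ++ w) m)) ∧ B.g (b ++ w) m s = B.g (b ++ w) m s'

variable {B} {Good} in
theorem Gen.g_inj {w v : List α} {P : Set K} {E : Set (K × K)}
    (G : Gen B Good w v P E) {x : List α} (hx : Good x) {p : K} (hp : p ∈ P)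
    {s s' : K} (hs : s ∈ Set.range (B.g v (B.d (v ++ (x ++ w)) p)))
    (hs' : s' ∈ Set.range (B.g v (B.d (v ++ (x ++ w)) p)))
    (h : B.g (v ++ (x ++ w)) p s = B.g (v ++ (x ++ w)) p s') : s = s' := by
  obtain ⟨x0, hx0, hv0⟩ := G.v_mem
  have h1 : Good (x0 ++ w ++ x) := G.mul _ _ (G.mul _ _ hx0 G.w_full) hx
  have h2 : v ++ (x ++ w) = (x0 ++ w ++ x) ++ w := by
    rw [hv0]
    simp only [List.append_assoc]
  have hd := G.dP _ h1
  rw [← h2] at hd
  have hmem : B.d (v ++ (x ++ w)) p ∈ P := by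
    rw [← hd.2]
    exact ⟨p, hp, rfl⟩
  have e : B.ps P (v ++ (x ++ w)) (B.d (v ++ (x ++ w)) p, s) =
      B.ps P (v ++ (x ++ w)) (B.d (v ++ (x ++ w)) p, s') := by
    rw [B.ps_eq hd.1 hp, B.ps_eq hd.1 hp, h]
  have h3 := G.gP x hx (show (B.d (v ++ (x ++ w)) p, s) ∈ B.gs P v from ⟨hmem, hs⟩)
    (show (B.d (v ++ (x ++ w)) p, s') ∈ B.gs P v from ⟨hmem, hs'⟩) e
  exact congrArg Prod.snd h3

variable {B} {Good} in
theorem Gen.disj {w v : List α} {P : Set K} {E : Set (K × K)}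
    (G : Gen B Good w v P E) {a b : List α} (hab : Good (a ++ b)) (t : Wit K)
    (ht : t ∈ WA B v P E a) : t ∉ WB B w v b := by
  intro ht'
  rcases t with ⟨u, u'⟩ | ⟨u, u'⟩ | ⟨m, t, t'⟩ | m
  · obtain ⟨h1, ⟨p, hp, rfl⟩, ⟨p', hp', rfl⟩⟩ := ht
    have h2 : B.d (b ++ w) (B.d a p) = B.d (b ++ w) (B.d a p') := ht'
    rw [← B.d_app, ← B.d_app, ← List.append_assoc] at h2
    exact h1 (congrArg _ ((G.dP _ hab).1 hp hp' h2))
  · obtain ⟨h1, ⟨p, hp, rfl⟩, ⟨p', hp', rfl⟩⟩ := ht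
    have h2 : B.ph (b ++ w ++ v) (B.ph a p) = B.ph (b ++ w ++ v) (B.ph a p') := ht'
    rw [← B.ph_app, ← B.ph_app, ← List.append_assoc, ← List.append_assoc] at h2
    exact h1 (congrArg _ (G.eP _ hab hp hp' h2))
  · obtain ⟨h1, p, hp, hm, h2⟩ := ht
    obtain ⟨s, s', hs, hs', h3, h4⟩ := ht'
    have h5 : v ++ ((a ++ b) ++ w) = (v ++ a) ++ (b ++ w) := by simp only [List.append_assoc]
    have h6 : B.d (v ++ ((a ++ b) ++ w)) p = B.d (b ++ w) m := by
      rw [h5, B.d_app, ← hm]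
    have h7 : s = s' := by
      refine G.g_inj hab hp ?_ ?_ ?_
      · rw [h6]; exact hs
      · rw [h6]; exact hs'
      · rw [h5, B.g_app, B.g_app (v ++ a), ← hm, ← h3, ← h4]
        exact h2
    exact h1 (by rw [h3, h4, h7])
  · obtain ⟨p, hp, hm⟩ := ht
    obtain ⟨s, s', hne, hs, hs', h3⟩ := ht'
    have h5 : v ++ ((a ++ b) ++ w) = (v ++ a) ++ (b ++ w) := by simp only [List.append_assoc]
    have h6 : B.d (v ++ ((a ++ b) ++ w)) p = B.d (b ++ w) m := by
      rw [h5, B.d_app, ← hm]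
    refine hne (G.g_inj hab hp ?_ ?_ ?_)
    · rw [h6]; exact hs
    · rw [h6]; exact hs'
    · rw [h5, B.g_app, B.g_app (v ++ a), ← hm, h3]

variable {B} {Good} in
theorem Gen.wit {w v : List α} {P : Set K} {E : Set (K × K)}
    (G : Gen B Good w v P E) {a b b' : List α} (ha : Good (a ++ b'))
    (hf : ¬ (Set.InjOn (B.d ((a ++ b) ++ w)) P ∧ Set.InjOn (B.ph ((a ++ b) ++ w ++ v)) E ∧
      Set.InjOn (B.ps P (v ++ ((a ++ b) ++ w))) (B.gs P v))) :
    (WA B v P E a ∩ WB B w v b).Nonempty := by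
  by_cases h0 : Set.InjOn (B.d ((a ++ b) ++ w)) P
  · by_cases h1 : Set.InjOn (B.ph ((a ++ b) ++ w ++ v)) E
    · have h2 : ¬ Set.InjOn (B.ps P (v ++ ((a ++ b) ++ w))) (B.gs P v) := fun h2 => hf ⟨h0, h1, h2⟩
      obtain ⟨x0, hx0, hv0⟩ := G.v_mem
      have hwP : ∀ (y : List α) p, B.d (y ++ w) p ∈ P := by
        intro y p
        rw [B.d_app, G.hP]
        exact ⟨_, rfl⟩
      have hvP : ∀ p, B.d v p ∈ P := by
        intro p
        rw [hv0]
        exact hwP _ _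
      have hz : Set.InjOn (B.d (v ++ ((a ++ b) ++ w))) P := by
        intro p hp q hq h
        rw [B.d_app v, B.d_app v] at h
        have h3 := h0 (hvP p) (hvP q) h
        rw [hv0] at h3
        exact (G.dP x0 hx0).1 hp hq h3
      have hzm : Set.MapsTo (B.d (v ++ ((a ++ b) ++ w))) P P := by
        intro p hp
        rw [B.d_app]
        exact hwP _ _
      have h4 : B.d (v ++ ((a ++ b) ++ w)) '' P = P :=
        (Set.eq_of_subset_of_ncard_le (Set.image_subset_iff.2 hzm)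
          (by rw [hz.ncard_image]) (Set.toFinite _))
      -- the two pairs
      unfold Set.InjOn at h2
      push Not at h2
      obtain ⟨⟨p1, s1⟩, ⟨hp1, hs1⟩, ⟨p2, s2⟩, ⟨hp2, hs2⟩, he, hne⟩ := h2
      rw [← h4] at hp1 hp2
      obtain ⟨r1, hr1, e1⟩ := hp1
      obtain ⟨r2, hr2, e2⟩ := hp2
      have e1' : B.d (v ++ ((a ++ b) ++ w)) r1 = p1 := e1
      have e2' : B.d (v ++ ((a ++ b) ++ w)) r2 = p2 := e2
      subst e1'
      subst e2'
      rw [B.ps_eq hz hr1, B.ps_eq hz hr2] at he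
      obtain ⟨he1, he2⟩ := Prod.ext_iff.1 he
      simp only at he1 he2
      subst he1
      have hs : s1 ≠ s2 := fun h => hne (by rw [h])
      have h5 : v ++ ((a ++ b) ++ w) = (v ++ a) ++ (b ++ w) := by simp only [List.append_assoc]
      simp only [h5] at hs1 hs2 he2
      rw [B.d_app] at hs1 hs2
      rw [B.g_app, B.g_app (v ++ a)] at he2
      by_cases h6 : B.g (b ++ w) (B.d (v ++ a) r1) s1 = B.g (b ++ w) (B.d (v ++ a) r1) s2
      · exact ⟨.inr (.inr (.inr (B.d (v ++ a) r1))), ⟨r1, hr1, rfl⟩,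
          ⟨s1, s2, hs, hs1, hs2, h6⟩⟩
      · exact ⟨.inr (.inr (.inl (B.d (v ++ a) r1, B.g (b ++ w) (B.d (v ++ a) r1) s1,
          B.g (b ++ w) (B.d (v ++ a) r1) s2))), ⟨h6, r1, hr1, rfl, he2⟩,
          ⟨s1, s2, hs1, hs2, rfl, rfl⟩⟩
    · unfold Set.InjOn at h1
      push Not at h1
      obtain ⟨e, he, e', he', h3, hne⟩ := h1
      have h5 : a ++ b ++ w ++ v = a ++ (b ++ w ++ v) := by simp only [List.append_assoc]
      rw [h5, B.ph_app, B.ph_app a] at h3
      refine ⟨.inr (.inl (B.ph a e, B.ph a e')), ⟨?_, ⟨e, he, rfl⟩, ⟨e', he', rfl⟩⟩, h3⟩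
      intro h
      have h6 : B.ph (a ++ b' ++ w ++ v) e = B.ph (a ++ b' ++ w ++ v) e' := by
        have e6 : a ++ b' ++ w ++ v = a ++ (b' ++ w ++ v) := by simp only [List.append_assoc]
        rw [e6, B.ph_app, B.ph_app a, h]
      exact hne (G.eP _ ha he he' h6)
  · unfold Set.InjOn at h0
    push Not at h0
    obtain ⟨p, hp, p', hp', h3, hne⟩ := h0
    rw [List.append_assoc, B.d_app, B.d_app a] at h3
    refine ⟨.inl (B.d a p, B.d a p'), ⟨?_, ⟨p, hp, rfl⟩, ⟨p', hp', rfl⟩⟩, h3⟩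
    intro h
    have h6 : B.d (a ++ b' ++ w) p = B.d (a ++ b' ++ w) p' := by
      rw [List.append_assoc, B.d_app, B.d_app a, h]
    exact hne ((G.dP _ ha).1 hp hp' h6)

end wit

theorem alg_gen {α K V : Type} [Fintype V] [DecidableEq V] [Fintype K] (B : Beh α K)
    (Good : List α → Prop) (hmul : ∀ x y, Good x → Good y → Good (x ++ y)) (hex : ∃ x, Good x)
    (a b : Finset V → List α) (hab : ∀ S S' : Finset V, ¬ S ⊆ S' → Good (a S ++ b S'))
    (hcard : 2 + Fintype.card K + Fintype.card K ^ 2 + Fintype.card K ^ 3 + Fintype.card K ^ 4 <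
      2 ^ Fintype.card V) (hK : Nonempty K) :
    ∃ (S : Finset V) (y : List α) (m : ℕ), Good y ∧ 1 ≤ m ∧
      (∀ p, B.d y p = B.d (y ++ pw m (a S ++ b S ++ y)) p) ∧
      (∀ p q, B.f y p q = B.f (y ++ pw m (a S ++ b S ++ y)) p q) ∧
      (∀ p q, B.g y p q = B.g (y ++ pw m (a S ++ b S ++ y)) p q) := by
  classical
  obtain ⟨w, v, P, E, G⟩ := exists_gen B Good hmul hex
  by_contra hcon
  have h := pigeon (fun S => WA B v P E (a S)) (fun S => WB B w v (b S)) ?_ ?_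
  · have hc : Fintype.card (Wit K) = Fintype.card K ^ 2 + (Fintype.card K ^ 4 +
        (Fintype.card K ^ 3 + Fintype.card K)) := by
      simp only [Fintype.card_sum, Fintype.card_prod]
      ring
    rw [hc] at h
    omega
  · intro S hS hS'
    apply G.wit (b' := b ∅) (hab S ∅ (fun h => hS (Finset.subset_empty.1 h)))
    rintro ⟨h0, h1, h2⟩
    obtain ⟨m, hm, h3, h4, h5⟩ := G.power B Good (a S ++ b S) h0 h1 h2
    refine hcon ⟨S, w ++ v, m, ?_, hm, h3, h4, h5⟩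
    obtain ⟨x0, hx0, hv0⟩ := G.v_mem
    rw [hv0]
    exact hmul _ _ G.w_full (hmul _ _ hx0 G.w_full)
  · intro S S' hSS t ht
    exact G.disj (hab S S' hSS) t ht

end Pool.Agent.NH88.FY
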