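import Mathlib
import Pool.Agent.NH19.LA.Time
import Pool.Agent.NH19.LA.Unamb

set_option autoImplicit false

/-!
The lower bounds for time-bounded deterministic and for unambiguous 1-limited automata with few visits,
for arbitrary words which decide whether two sets intersect.
-/

namespace Pool.Agent.NH88.FY

open Pool.Agent.H630R2.LA Pool.Agent.R620.KV Pool.Agent.NH19.LA

theorem time_gen {A V : Type} [Fintype V] [DecidableEq V] (strict : Prop)
    (M : LimAut A) (hd : M.Deterministic) (t N0 : ℕ)
    (ht : ∀ w : List A, N0 ≤ w.length → ∀ (T : ℕ) (f : ℕ → Cfg M),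
      IsComp strict M w T f → T ≤ t * w.length)
    (xa xb : Finset V → List A) (hxa : ∀ S, xa S ≠ []) (pd : ℕ → List A)
    (hpd : ∀ N, N ≤ (pd N).length)
    (hmem : ∀ N S T, 1 ≤ N → (xa S ++ pd N ++ xb T ∈ M.language strict ↔ (S ∩ T).Nonempty)) :
    2 ^ Fintype.card V < 2 * (Nat.card M.Q + 1) ^ (2 * t) := by
  classical
  by_contra hcon
  rw [not_lt] at hcon
  have hfin := M.finQ
  let _ : Fintype M.Q := Fintype.ofFinite _
  rw [Nat.card_eq_fintype_card] at hcon
  let la : Finset V → ℕ := fun S => (xa S).length
  let lb : Finset V → ℕ := fun S => (xb Sᶜ).length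
  let C : ℕ := ∑ S : Finset V, (la S + lb S)
  let N : ℕ := N0 + 2 * t * C + 1
  let pad := pd N
  have hP : N ≤ pad.length := hpd N
  let ww : Finset V → Finset V → List A := fun S T =>
    xa S ++ pad ++ xb T
  have hww : ∀ S T, ww S T ∈ M.language strict ↔ (S ∩ T).Nonempty := by
    intro S T
    exact hmem N S T (by omega)
  have hlen : ∀ S, (ww S Sᶜ).length = la S + pad.length + lb S := by
    intro S
    simp only [ww, la, lb, List.length_append]
  have hbound : ∀ S, ∀ (T : ℕ) (f : ℕ → Cfg M), IsComp strict M (ww S Sᶜ) T f →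
      T ≤ t * (la S + pad.length + lb S) := by
    intro S T f hf
    have := ht (ww S Sᶜ) (by rw [hlen]; omega) T f hf
    rwa [hlen] at this
  have hmaxex : ∀ S, ∃ (T : ℕ) (f : ℕ → Cfg M), IsMax strict M (ww S Sᶜ) T f := fun S =>
    exists_max _ _ (hbound S)
  choose T f hf using hmaxex
  let c : ℕ → Finset V → List M.Q := fun j S => cl (f S) (la S + j) (T S) 0
  have hinj : ∀ j < pad.length, Function.Injective (c j) := by
    intro j hj
    have key : ∀ S S' : Finset V, (S ∩ S'ᶜ).Nonempty → c j S ≠ c j S' := by
      intro S S' hSS h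
      have hsplit : ∀ X Y, ww X Y = (xa X ++ pad.take j) ++ (pad.drop j ++ xb Y) := by
        intro X Y
        show xa X ++ pad ++ xb Y = _
        conv_lhs => rw [← List.take_append_drop j pad]
        simp only [List.append_assoc]
      have hxl : ∀ X : Finset V, (xa X ++ pad.take j).length = la X + j := by
        intro X
        rw [List.length_append, List.length_take]
        have : min j pad.length = j := by omega
        rw [this]
      have hne : ∀ X : Finset V, (xa X ++ pad.take j) ≠ [] := by
        intro X h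
        exact hxa X (List.append_eq_nil_iff.1 h).1
      have h1 := hf S
      have h2 := hf S'
      rw [hsplit] at h1 h2
      have h3 : (xa S' ++ pad.take j) ++ (pad.drop j ++ xb S'ᶜ) ∉
          M.language strict := by
        rw [← hsplit, hww]
        simp
      have h4 := paste hd (hne S) (hne S') h1 h2 h3 (by rw [hxl, hxl]; exact h)
      rw [← hsplit, hww] at h4
      exact h4 hSS
    intro S S' h
    by_contra hne
    by_cases hs : S ⊆ S'
    · have hs' : ¬ S' ⊆ S := fun h => hne (hs.antisymm h)
      obtain ⟨v, hv, hv'⟩ := Finset.not_subset.1 hs'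
      exact key S' S ⟨v, by simp [hv, hv']⟩ h.symm
    · obtain ⟨v, hv, hv'⟩ := Finset.not_subset.1 hs
      exact key S S' ⟨v, by simp [hv, hv']⟩ h
  have hV : Fintype.card (Finset V) = 2 ^ Fintype.card V := by
    simp
  -- lower bound for each boundary
  have hlow : ∀ j < pad.length, (2 * t + 1) * 2 ^ Fintype.card V ≤ 2 * ∑ S, (c j S).length := by
    intro j hj
    have h1 := card_short (c j) (hinj j hj) (2 * t)
    have h2 := Finset.card_filter_add_card_filter_not (s := (Finset.univ : Finset (Finset V)))
      (fun S => (c j S).length ≤ 2 * t)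
    rw [Finset.card_univ, hV] at h2
    have h3 : (2 * t + 1) * (Finset.univ.filter fun S => ¬ (c j S).length ≤ 2 * t).card ≤
        ∑ S, (c j S).length := by
      calc (2 * t + 1) * (Finset.univ.filter fun S => ¬ (c j S).length ≤ 2 * t).card
          = ∑ S ∈ Finset.univ.filter (fun S => ¬ (c j S).length ≤ 2 * t), (2 * t + 1) := by
            rw [Finset.sum_const, smul_eq_mul, mul_comm]
        _ ≤ ∑ S ∈ Finset.univ.filter (fun S => ¬ (c j S).length ≤ 2 * t), (c j S).length := by
            apply Finset.sum_le_sum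
            intro S hS
            rw [Finset.mem_filter] at hS
            omega
        _ ≤ ∑ S, (c j S).length :=
            Finset.sum_le_sum_of_subset (Finset.filter_subset _ _)
    have h4 : 2 ^ Fintype.card V ≤ 2 * (Finset.univ.filter fun S => ¬ (c j S).length ≤ 2 * t).card := by
      omega
    calc (2 * t + 1) * 2 ^ Fintype.card V ≤ (2 * t + 1) *
          (2 * (Finset.univ.filter fun S => ¬ (c j S).length ≤ 2 * t).card) :=
          Nat.mul_le_mul_left _ h4
      _ = 2 * ((2 * t + 1) * (Finset.univ.filter fun S => ¬ (c j S).length ≤ 2 * t).card) := by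
          ring
      _ ≤ _ := Nat.mul_le_mul_left _ h3
  -- upper bound
  have hup : ∑ j ∈ Finset.range pad.length, ∑ S, (c j S).length ≤
      t * (C + 2 ^ Fintype.card V * pad.length) := by
    rw [Finset.sum_comm]
    calc ∑ S, ∑ j ∈ Finset.range pad.length, (c j S).length ≤ ∑ S, T S :=
          Finset.sum_le_sum fun S _ => sum_cl (f S) (la S) pad.length (T S) 0
      _ ≤ ∑ S, t * (la S + pad.length + lb S) :=
          Finset.sum_le_sum fun S _ => hbound S _ _ (hf S).toIsComp
      _ = t * (C + 2 ^ Fintype.card V * pad.length) := by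
          rw [← Finset.mul_sum]
          congr 1
          have : ∀ S : Finset V, la S + pad.length + lb S = (la S + lb S) + pad.length := by
            intro S; ring
          simp only [this]
          rw [Finset.sum_add_distrib, Finset.sum_const, Finset.card_univ, hV, smul_eq_mul]
  have hsum : pad.length * ((2 * t + 1) * 2 ^ Fintype.card V) ≤
      2 * ∑ j ∈ Finset.range pad.length, ∑ S, (c j S).length := by
    rw [Finset.mul_sum]
    calc pad.length * ((2 * t + 1) * 2 ^ Fintype.card V) =
          ∑ j ∈ Finset.range pad.length, (2 * t + 1) * 2 ^ Fintype.card V := by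
          rw [Finset.sum_const, Finset.card_range, smul_eq_mul]
      _ ≤ _ := Finset.sum_le_sum fun j hj => hlow j (Finset.mem_range.1 hj)
  have h5 : pad.length * 2 ^ Fintype.card V ≤ 2 * t * C := by
    have h6 : pad.length * ((2 * t + 1) * 2 ^ Fintype.card V) ≤
        2 * (t * (C + 2 ^ Fintype.card V * pad.length)) := hsum.trans (Nat.mul_le_mul_left _ hup)
    nlinarith
  have h7 : pad.length * 1 ≤ pad.length * 2 ^ Fintype.card V :=
    Nat.mul_le_mul_left _ (Nat.one_le_two_pow)
  omega

theorem unamb_gen {A V : Type} [Fintype V] [DecidableEq V] (strict : Prop)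
    (M : LimAut A) (hu : Unambiguous strict M) (k : ℕ) (hv : FewVisits strict k M)
    (xa xb : Finset V → List A) (hxa : ∀ S, xa S ≠ [])
    (hww : ∀ S T, xa S ++ xb T ∈ M.language strict ↔ (S ∩ T).Nonempty) :
    2 ^ Fintype.card V ≤ (Nat.card M.Q + 1) ^ (2 * k) + 1 := by
  classical
  have hfin := M.finQ
  let _ : Fintype M.Q := Fintype.ofFinite _
  rw [Nat.card_eq_fintype_card]
  let ww : Finset V → Finset V → List A := fun S T => xa S ++ xb T
  let P : Finset V → Finset V → List M.Q → Prop := fun S T l =>
    ∃ (U : ℕ) (g : ℕ → Cfg M), IsAcc strict M (ww S T) U g ∧ cl g (xa S).length U 0 = l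
  have hne := hxa
  have huniq : ∀ S T l l', P S T l → P S T l' → l = l' := by
    rintro S T l l' ⟨U, g, h1, h2⟩ ⟨U', g', h1', h2'⟩
    obtain ⟨rfl, h3⟩ := hu _ _ _ _ _ h1 h1'
    rw [← h2, ← h2']
    apply cl_congr
    intro i hi
    rw [Nat.zero_add]
    exact h3 i hi
  have hex : ∀ S T, (S ∩ T).Nonempty → ∃ l, P S T l ∧ l.length ≤ 2 * k := by
    intro S T hST
    obtain ⟨U, g, h1, h2⟩ := hv _ ((hww S T).2 hST)
    refine ⟨_, ⟨U, g, h1, rfl⟩, length_cl_visits h1 _ _ ?_ (h2 _)⟩
    simp [ww]
  have hno : ∀ S T l, P S T l → (S ∩ T).Nonempty := by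
    rintro S T l ⟨U, g, h1, _⟩
    rw [← hww]
    refine ⟨g U, ?_, h1.last, h1.final⟩
    have : ∀ t, t ≤ U → Relation.ReflTransGen (Step strict (ww S T).length)
        (init M (ww S T)) (g t) := by
      intro t
      induction t with
      | zero => intro _; rw [h1.start]
      | succ t ih => intro ht; exact (ih (by omega)).tail (h1.step t (by omega))
    exact this U le_rfl
  have hpaste : ∀ S T S' T' l, P S T' l → P S' T l → P S T l := by
    rintro S T S' T' l ⟨U, g, h1, h2⟩ ⟨U', g', h1', h2'⟩
    obtain ⟨U'', g'', h3, h4⟩ := pasteA (hne S) (hne S') h1 h1' (h2.trans h2'.symm)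
    exact ⟨U'', g'', h3, h4.trans h2⟩
  -- the code of a list
  let enc : List M.Q → (Fin (2 * k) → Option M.Q) := fun l i => l[i.1]?
  have henc : ∀ l l' : List M.Q, l.length ≤ 2 * k → l'.length ≤ 2 * k → enc l = enc l' →
      l = l' := by
    intro l l' hl hl' h
    apply List.ext_getElem?
    intro i
    by_cases hi : i < 2 * k
    · exact congrFun h ⟨i, hi⟩
    · rw [List.getElem?_eq_none (by omega), List.getElem?_eq_none (by omega)]
  let a : Finset V → (Fin (2 * k) → Option M.Q) → ℚ := fun S e =>
    if ∃ T l, P S T l ∧ l.length ≤ 2 * k ∧ enc l = e then 1 else 0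
  let b : Finset V → (Fin (2 * k) → Option M.Q) → ℚ := fun T e =>
    if ∃ S l, P S T l ∧ l.length ≤ 2 * k ∧ enc l = e then 1 else 0
  have key := rank_bound (V := V) a b (by
    intro S T
    by_cases hST : (S ∩ T).Nonempty
    · rw [if_pos hST]
      obtain ⟨l, hl1, hl2⟩ := hex S T hST
      rw [Finset.sum_eq_single (enc l)]
      · have h1 : a S (enc l) = 1 := if_pos ⟨T, l, hl1, hl2, rfl⟩
        have h2 : b T (enc l) = 1 := if_pos ⟨S, l, hl1, hl2, rfl⟩
        rw [h1, h2, one_mul]
      · intro e _ hne'
        by_cases h1 : ∃ T l, P S T l ∧ l.length ≤ 2 * k ∧ enc l = e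
        · by_cases h2 : ∃ S l, P S T l ∧ l.length ≤ 2 * k ∧ enc l = e
          · exfalso
            obtain ⟨T', l1, h3, h4, h5⟩ := h1
            obtain ⟨S', l2, h6, h7, h8⟩ := h2
            have h9 : l1 = l2 := henc _ _ h4 h7 (h5.trans h8.symm)
            subst h9
            have h10 := hpaste S T S' T' l1 h3 h6
            have h11 := huniq S T _ _ h10 hl1
            exact hne' (by rw [← h5, h11])
          · have : b T e = 0 := if_neg h2
            rw [this, mul_zero]
        · have : a S e = 0 := if_neg h1
          rw [this, zero_mul]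
      · intro h
        exact absurd (Finset.mem_univ _) h
    · rw [if_neg hST]
      apply Finset.sum_eq_zero
      intro e _
      by_cases h1 : ∃ T l, P S T l ∧ l.length ≤ 2 * k ∧ enc l = e
      · by_cases h2 : ∃ S l, P S T l ∧ l.length ≤ 2 * k ∧ enc l = e
        · exfalso
          obtain ⟨T', l1, h3, h4, h5⟩ := h1
          obtain ⟨S', l2, h6, h7, h8⟩ := h2
          have h9 : l1 = l2 := henc _ _ h4 h7 (h5.trans h8.symm)
          subst h9
          exact hST (hno _ _ _ (hpaste S T S' T' l1 h3 h6))
        · have : b T e = 0 := if_neg h2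
          rw [this, mul_zero]
      · have : a S e = 0 := if_neg h1
        rw [this, zero_mul])
  have h1 : Fintype.card (Fin (2 * k) → Option M.Q) = (Fintype.card M.Q + 1) ^ (2 * k) := by
    rw [Fintype.card_fun, Fintype.card_option, Fintype.card_fin]
  rw [h1] at key
  exact key

end Pool.Agent.NH88.FY
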