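import Mathlib
import Pool.Agent.H630R2.LA.Nerode
import Pool.Agent.R620.KV.Trips

set_option autoImplicit false

/-!
The subset construction: every 1-limited automaton has an equivalent deterministic one that moves
only to the right, of double exponential size.
-/

namespace Pool.Agent.NH88.FY

open Relation Pool.Agent.H630R2.LA Pool.Agent.R620.KV

variable {A : Type}

/-- States of the table automaton. -/
abbrev Tb (M : LimAut A) : Type := Set (M.Q × M.Q) × M.Q

/-- The next set of states. -/
def nx (strict : Prop) (M : LimAut A) (X : Set (Tb M)) (a : A) : Set (Tb M) :=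
  {z | ∃ x ∈ X, nstep strict M (.sym (M.inp a)) x z}

/-- The moves of the subset automaton. -/
inductive PTr (strict : Prop) (M : LimAut A) :
    Option (Set (Tb M)) → Sym (Option A) → Option (Set (Tb M)) → Option A → Bool → Prop
  | go (X : Set (Tb M)) (a : A) : PTr strict M (some X) (.sym (some a)) (some (nx strict M X a)) none true
  | fin (X : Set (Tb M)) (h : ∃ y ∈ X, finX strict M y) : PTr strict M (some X) .rm none none true

/-- The subset automaton. -/
def pow (strict : Prop) [Finite A] (M : LimAut A) : LimAut A where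
  Q := Option (Set (Tb M))
  W := Option A
  finQ := by
    have := M.finQ
    infer_instance
  finW := inferInstance
  inp := some
  inp_inj := Option.some_injective A
  δ := fun p σ => {x | PTr strict M p σ x.1 x.2.1 x.2.2}
  q0 := some {x0 strict M}
  F := {none}

variable [Finite A] {strict : Prop} {M : LimAut A}

theorem pow_det : (pow strict M).Deterministic := by
  rintro p σ ⟨q, b, d⟩ h ⟨q', b', d'⟩ h'
  have h1 : PTr strict M p σ q b d := h
  have h2 : PTr strict M p σ q' b' d' := h'
  cases h1 <;> cases h2 <;> rfl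

/-- Sets reached. -/
def nxs (strict : Prop) (M : LimAut A) : Set (Tb M) → List A → Set (Tb M)
  | X, [] => X
  | X, a :: w => nxs strict M (nx strict M X a) w

theorem mem_nxs (w : List A) : ∀ (X : Set (Tb M)) (y : Tb M),
    y ∈ nxs strict M X w ↔ ∃ x ∈ X, runs strict M w x y := by
  induction w with
  | nil =>
    intro X y
    constructor
    · intro h
      exact ⟨y, h, rfl⟩
    · rintro ⟨x, hx, h⟩
      have h' : x = y := h
      rw [← h']
      exact hx
  | cons a w ih =>
    intro X y
    show y ∈ nxs strict M (nx strict M X a) w ↔ _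
    rw [ih]
    constructor
    · rintro ⟨z, ⟨x, hx, h1⟩, h2⟩
      exact ⟨x, hx, z, h1, h2⟩
    · rintro ⟨x, hx, z, h1, h2⟩
      exact ⟨z, ⟨x, hx, h1⟩, h2⟩

theorem pow_nstep (R : Set ((pow strict M).Q × (pow strict M).Q)) (X : Set (Tb M)) (a : A)
    (y : Set ((pow strict M).Q × (pow strict M).Q) × (pow strict M).Q)
    (h : nstep strict (pow strict M) (.sym ((pow strict M).inp a)) (R, (some X : Option (Set (Tb M)))) y) :
    y.2 = (some (nx strict M X a) : Option (Set (Tb M))) := by
  obtain ⟨q, b, d, h1, h2, h3, h4⟩ := h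
  have h5 : PTr strict M (some X) (.sym (some a)) q b d := h1
  generalize hq : q = q' at h5
  cases h5 with
  | go =>
    rw [h3 rfl, hq]

theorem pow_runs (w : List A) : ∀ (R : Set ((pow strict M).Q × (pow strict M).Q)) (X : Set (Tb M))
    (y : Set ((pow strict M).Q × (pow strict M).Q) × (pow strict M).Q),
    runs strict (pow strict M) w (R, (some X : Option (Set (Tb M)))) y →
    y.2 = (some (nxs strict M X w) : Option (Set (Tb M))) := by
  induction w with
  | nil =>
    intro R X y h
    have h' : (R, (some X : Option (Set (Tb M)))) = y := h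
    rw [← h']
    rfl
  | cons a w ih =>
    rintro R X y ⟨z, h1, h2⟩
    have h3 := pow_nstep R X a z h1
    obtain ⟨R', p'⟩ := z
    dsimp only at h3
    subst h3
    exact ih R' _ y h2

theorem pow_runs_ex (w : List A) : ∀ (R : Set ((pow strict M).Q × (pow strict M).Q))
    (X : Set (Tb M)), ∃ y, runs strict (pow strict M) w (R, (some X : Option (Set (Tb M)))) y := by
  induction w with
  | nil =>
    intro R X
    exact ⟨_, rfl⟩
  | cons a w ih =>
    intro R X
    obtain ⟨y, hy⟩ := ih (ext strict (pow strict M) R ((Sym.sym (some a) : Sym (Option A)).rewrite none))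
      (nx strict M X a)
    exact ⟨y, _, ⟨(some (nx strict M X a) : Option (Set (Tb M))), none, true, PTr.go X a, rfl,
      fun _ => rfl, fun h => absurd h (by simp)⟩, hy⟩

theorem pow_fin (y : Set ((pow strict M).Q × (pow strict M).Q) × (pow strict M).Q) (X : Set (Tb M))
    (hy : y.2 = (some X : Option (Set (Tb M)))) :
    finX strict (pow strict M) y ↔ ∃ z ∈ X, finX strict M z := by
  obtain ⟨R, p⟩ := y
  dsimp only at hy
  subst hy
  constructor
  · rintro ⟨z, ⟨q, b, d, h1, _⟩, _⟩
    have h5 : PTr strict M (some X) .rm q b d := h1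
    cases h5 with
    | fin _ h => exact h
  · intro h
    exact ⟨(ext strict (pow strict M) R ((Sym.rm : Sym (Option A)).rewrite none),
      (none : Option (Set (Tb M)))), ⟨(none : Option (Set (Tb M))), none, true, PTr.fin X h, rfl,
      fun _ => rfl, fun h => absurd h (by simp)⟩, rfl⟩

theorem pow_language : (pow strict M).language strict = M.language strict := by
  ext w
  rw [mem_language_runs, mem_language_runs]
  constructor
  · rintro ⟨y, h1, h2⟩
    have h3 := pow_runs w _ _ y h1
    obtain ⟨z, h4, h5⟩ := (pow_fin y _ h3).1 h2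
    obtain ⟨x, h6, h7⟩ := (mem_nxs w _ z).1 h4
    have h8 : x = x0 strict M := h6
    subst h8
    exact ⟨z, h7, h5⟩
  · rintro ⟨z, h1, h2⟩
    obtain ⟨y, h3⟩ := pow_runs_ex (strict := strict) (M := M) w (x0 strict (pow strict M)).1
      {x0 strict M}
    exact ⟨y, h3, (pow_fin y _ (pow_runs w _ _ y h3)).2 ⟨z, (mem_nxs w _ z).2 ⟨_, rfl, h1⟩, h2⟩⟩

theorem pow_pos {w : List A} {T : ℕ} {f : ℕ → Cfg (pow strict M)}
    (hf : IsComp strict (pow strict M) w T f) : ∀ t ≤ T, (f t).pos = t + 1 := by
  intro t
  induction t with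
  | zero =>
    intro _
    rw [hf.start]
    rfl
  | succ t ih =>
    intro ht
    obtain ⟨_, q, b, d, h3, _, _, _, _, _, h8, _⟩ := hf.step t (by omega)
    have h5 : PTr strict M (f t).state ((f t).tape (f t).pos) q b d := h3
    have h6 : d = true := by
      generalize (f t).state = p1 at h5
      generalize (f t).tape (f t).pos = p2 at h5
      cases h5 <;> rfl
    rw [h8 h6, ih (by omega)]

theorem pow_time (w : List A) (T : ℕ) (f : ℕ → Cfg (pow strict M))
    (hf : IsComp strict (pow strict M) w T f) : T ≤ w.length + 1 := by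
  rcases T with _ | T
  · omega
  · have h2 := (hf.step T (by omega)).1
    rw [pow_pos hf T (by omega)] at h2
    omega

theorem pow_size (hA : 1 ≤ M.size) : (pow strict M).size ≤ 2 ^ (2 ^ (M.size ^ 2 + 4)) := by
  have hfin := M.finQ
  have h1 := numTrans_le (pow strict M) pow_det
  have hW : Nat.card (pow strict M).W = Nat.card A + 1 := by
    show Nat.card (Option A) = _
    rw [Finite.card_option]
  have hQ : Nat.card (pow strict M).Q = 2 ^ (2 ^ (Nat.card M.Q * Nat.card M.Q) * Nat.card M.Q) + 1 := by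
    show Nat.card (Option (Set (Tb M))) = _
    rw [Finite.card_option]
    congr 1
    have : Nat.card (Set (Tb M)) = Nat.card ((Tb M) → Prop) := rfl
    rw [this, Nat.card_fun, card_table]
    simp
  have hF : (pow strict M).F.ncard = 1 := Set.ncard_singleton _
  have hq : Nat.card M.Q + Nat.card A + 3 ≤ M.size := by
    unfold LimAut.size
    omega
  have hsz : (pow strict M).size = Nat.card (pow strict M).Q + Nat.card A +
      (Nat.card (pow strict M).W + 2) + 5 * (pow strict M).numTrans + 1 + (pow strict M).F.ncard := rfl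
  rw [hsz, hF, hW]
  rw [hW] at h1
  rw [hQ] at h1 ⊢
  generalize (pow strict M).numTrans = t at *
  generalize M.size = n at *
  generalize Nat.card A = a at *
  generalize Nat.card M.Q = q at *
  have h2 : 2 ^ (q * q) * q ≤ 2 ^ (n ^ 2 + 1) := by
    calc 2 ^ (q * q) * q ≤ 2 ^ (q * q) * 2 ^ q := Nat.mul_le_mul_left _ (Nat.lt_two_pow_self).le
      _ = 2 ^ (q * q + q) := by rw [pow_add]
      _ ≤ 2 ^ (n ^ 2 + 1) := by
          apply Nat.pow_le_pow_right (by omega)
          nlinarith
  have h3 : 2 ^ (2 ^ (q * q) * q) ≤ 2 ^ (2 ^ (n ^ 2 + 1)) := Nat.pow_le_pow_right (by omega) h2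
  have h4 : n ≤ 2 ^ n := (Nat.lt_two_pow_self).le
  have h5 : 2 ^ n ≤ 2 ^ (2 ^ (n ^ 2 + 1)) := by
    apply Nat.pow_le_pow_right (by omega)
    calc n ≤ n ^ 2 + 1 := by nlinarith
      _ ≤ 2 ^ (n ^ 2 + 1) := (Nat.lt_two_pow_self).le
  have h6 : 2 ^ (2 ^ (n ^ 2 + 4)) = (2 ^ (2 ^ (n ^ 2 + 1))) ^ 8 := by
    rw [← pow_mul]
    congr 1
    rw [pow_add, pow_add]
    ring
  rw [h6]
  have h7 : 16 ≤ 2 ^ (2 ^ (n ^ 2 + 1)) := by
    calc 16 = 2 ^ 4 := by norm_num
      _ ≤ 2 ^ (2 ^ (n ^ 2 + 1)) := by
          apply Nat.pow_le_pow_right (by omega)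
          calc 4 = 2 ^ 2 := by norm_num
            _ ≤ 2 ^ (n ^ 2 + 1) := Nat.pow_le_pow_right (by omega) (by nlinarith)
  generalize 2 ^ (2 ^ (n ^ 2 + 1)) = Z at *
  generalize 2 ^ (2 ^ (q * q) * q) = X at *
  have h8 : a + 3 ≤ Z := by omega
  have h9 : t ≤ (Z + 1) * Z := by
    calc t ≤ (X + 1) * (a + 1 + 2) := h1
      _ ≤ (Z + 1) * Z := Nat.mul_le_mul (by omega) (by omega)
  have h10 : X + 1 + a + (a + 1 + 2) + 5 * t + 1 + 1 ≤ 16 * Z ^ 2 := by nlinarith
  refine h10.trans ?_
  calc 16 * Z ^ 2 ≤ Z * Z ^ 2 := Nat.mul_le_mul_right _ h7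
    _ = Z ^ 3 := by ring
    _ ≤ Z ^ 8 := Nat.pow_le_pow_right (by omega) (by omega)

/-- Every 1-limited automaton has an equivalent deterministic one that makes at most `|w| + 1` moves
on the input `w`, of double exponential size. -/
theorem up (strict : Prop) (M : LimAut A) : ∃ M' : LimAut A, M'.Deterministic ∧
    M'.language strict = M.language strict ∧
    (∀ (w : List A) (T : ℕ) (f : ℕ → Cfg M'), IsComp strict M' w T f → T ≤ w.length + 1) ∧
    M'.size ≤ 2 ^ (2 ^ (M.size ^ 2 + 4)) :=
  ⟨pow strict M, pow_det, pow_language, pow_time, pow_size (by unfold LimAut.size; omega)⟩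

end Pool.Agent.NH88.FY
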