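import Mathlib
import Pool.Agent.NH88.FX.Fin
import Pool.Agent.NH88.FX.Main
import Pool.Agent.NH88.FY.Gen
import Pool.Agent.NH88.FY.Up

set_option autoImplicit false

/-!
Linear time and few visits: the witness with queries.
-/

namespace Pool.Agent.NH88.FY

open Relation Pool.Agent.H630R2.LA Pool.Agent.R620.KV Pool.Agent.NH19.LA Pool.Agent.NH88.FX

variable {m : ℕ} {strict : Prop}

/-- One segment. -/
theorem mem_seg (Xs : List (Mt m)) (l : List (Fin m × Fin m × Bool))
    (Q : List (List (Fin m × Fin m × Bool))) :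
    Ltr.b :: ((blocksW Xs ++ listsW (l :: Q)) ++ [Ltr.e]) ∈ (witM m).language strict ↔
      ∃ X ∈ Xs, ∃ l' ∈ l :: Q, ∀ x ∈ l', X x.1 x.2.1 = x.2.2 := by
  rw [mem_language_runs, ← runs_word (strict := strict) Xs l Q
    (ext strict (witM m) (x0 strict (witM m)).1 (.sym (.vis .b)))]
  constructor
  · rintro ⟨y, ⟨z, h1, h2⟩, _⟩
    obtain ⟨_, h5, h6⟩ := (nstep_b z).1 h1
    obtain ⟨R', p'⟩ := z
    dsimp only at h5 h6
    subst h5 h6
    exact ⟨y, h2⟩
  · rintro ⟨y, h2⟩
    have h3 := h2
    rw [runs_append] at h3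
    obtain ⟨z0, _, z1, h5, h6⟩ := h3
    have h6' : z1 = y := h6
    subst h6'
    obtain ⟨_, h7, _⟩ := (nstep_e z1).1 h5
    exact ⟨z1, ⟨_, (nstep_b _).2 ⟨rfl, rfl, rfl⟩, h2⟩, (finX_iff z1).2 h7⟩

/-- The word of a set of matrices. -/
noncomputable def xa (S : Finset (Mt m)) : List Ltr := Ltr.b :: blocksW S.toList

/-- The word of a set of tests. -/
noncomputable def xb (T : Finset (Mt m)) : List Ltr := listsW (T.toList.map test) ++ [Ltr.e]

/-- Padding. -/
def pd (i : Fin m) (N : ℕ) : List Ltr := listsW (List.replicate N (bad i))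

theorem pd_len (i : Fin m) (N : ℕ) : N ≤ (pd i N).length := by
  unfold pd
  induction N with
  | zero => exact Nat.zero_le _
  | succ N ih =>
    have e : listsW (List.replicate (N + 1) (bad i)) =
        Ltr.q :: (queriesW (bad i) ++ listsW (List.replicate N (bad i))) := by
      rw [List.replicate_succ]
      simp [listsW]
    rw [e, List.length_cons, List.length_append]
    omega

theorem mem_pad (i : Fin m) (N : ℕ) (S T : Finset (Mt m)) (hN : 1 ≤ N) :
    xa S ++ pd i N ++ xb T ∈ (witM m).language strict ↔ (S ∩ T).Nonempty := by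
  obtain ⟨N, rfl⟩ : ∃ N', N = N' + 1 := ⟨N - 1, by omega⟩
  have e : xa S ++ pd i (N + 1) ++ xb T = Ltr.b :: ((blocksW S.toList ++
      listsW (bad i :: (List.replicate N (bad i) ++ T.toList.map test))) ++ [Ltr.e]) := by
    unfold xa pd xb
    rw [List.replicate_succ]
    simp [listsW]
  rw [e, mem_seg]
  constructor
  · rintro ⟨X, h2, l', h3, h4⟩
    rcases List.mem_cons.1 h3 with rfl | h3
    · exact absurd h4 (not_bad i X)
    · rcases List.mem_append.1 h3 with h3 | h3
      · rw [List.eq_of_mem_replicate h3] at h4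
        exact absurd h4 (not_bad i X)
      · obtain ⟨Y, h5, rfl⟩ := List.mem_map.1 h3
        have h6 := (test_iff X Y).1 h4
        subst h6
        exact ⟨X, Finset.mem_inter.2 ⟨by simpa using h2, by simpa using h5⟩⟩
  · rintro ⟨X, h⟩
    rw [Finset.mem_inter] at h
    refine ⟨X, by simpa using h.1, test X, ?_, (test_iff X X).2 rfl⟩
    exact List.mem_cons_of_mem _ (List.mem_append_right _
      (List.mem_map.2 ⟨X, by simpa using h.2, rfl⟩))

theorem time_lower {M : LimAut Ltr} (hm : 1 ≤ m) (hd : M.Deterministic)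
    (hL : M.language strict = (witM m).language strict) (t N0 : ℕ)
    (ht : ∀ w : List Ltr, N0 ≤ w.length → ∀ (T : ℕ) (f : ℕ → Cfg M),
      IsComp strict M w T f → T ≤ t * w.length) :
    2 ^ (2 ^ (m ^ 2)) < 2 * (Nat.card M.Q + 1) ^ (2 * t) := by
  classical
  have h := time_gen strict M hd t N0 ht (xa (m := m)) xb (fun S => by simp [xa])
    (pd ⟨0, hm⟩) (pd_len _) (fun N S T hN => by rw [hL]; exact mem_pad _ N S T hN)
  rwa [card_Mt] at h

theorem unamb_lower {M : LimAut Ltr} (hm : 1 ≤ m) (hu : Unambiguous strict M)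
    (hL : M.language strict = (witM m).language strict) (k : ℕ) (hv : FewVisits strict k M) :
    2 ^ (2 ^ (m ^ 2)) ≤ (Nat.card M.Q + 1) ^ (2 * k) + 1 := by
  classical
  have h := unamb_gen strict M hu k hv (fun S => xa (m := m) S ++ pd ⟨0, hm⟩ 1) xb
    (fun S => by simp [xa]) (fun S T => by rw [hL]; exact mem_pad _ 1 S T le_rfl)
  rwa [card_Mt] at h

end Pool.Agent.NH88.FY
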