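import Mathlib
import Pool.Agent.NH88.FY.Low
import Pool.Agent.NH19.LA.MnTime

set_option autoImplicit false
set_option exponentiation.threshold 100000000

/-!
The cost functions for deterministic 1-limited automata that work in linear time, and for unambiguous
1-limited automata with few visits.
-/

namespace Pool.Agent.NH88.FY

open Relation Pool.Agent.H630R2.LA Pool.Agent.R620.KV Pool.Agent.NH19.LA Pool.Agent.NH88.FX

/-- All computations on long enough inputs `w` have at most `t |w|` moves. -/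
def LinTime (strict : Prop) {A : Type} (M : LimAut A) (t : ℕ) : Prop :=
  ∃ N : ℕ, ∀ w : List A, N ≤ w.length → ∀ (T : ℕ) (f : ℕ → Cfg M),
    IsComp strict M w T f → T ≤ t * w.length

/-- The least size of a 1-limited automaton with the property `P` and the language `L`. -/
noncomputable def minSize {A : Type} (strict : Prop) (P : LimAut A → Prop) (L : Set (List A)) : ℕ :=
  sInf {s | ∃ M : LimAut A, P M ∧ M.language strict = L ∧ M.size = s}

/-- The cost function: the greatest of the values `minSize`, for the languages of the 1-limited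
automata of size at most `n`. -/
noncomputable def cost (strict : Prop) (P : ∀ A : Type, LimAut A → Prop) (n : ℕ) : ℕ :=
  sSup {s | ∃ (A : Type) (_ : Finite A) (M : LimAut A), M.size ≤ n ∧
    s = minSize strict (P A) (M.language strict)}

/-- Bounds of the cost function. -/
theorem cost_bounds (strict : Prop) (P : ∀ A : Type, LimAut A → Prop)
    (hup : ∀ (A : Type) [Finite A] (M : LimAut A), ∃ M' : LimAut A, P A M' ∧
      M'.language strict = M.language strict ∧ M'.size ≤ 2 ^ (2 ^ (M.size ^ 2 + 4)))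
    (B : ℕ → ℕ → Prop) (hB : ∀ a b c, a ≤ b → B c a → B c b)
    (hlow : ∀ m, 1 ≤ m → ∀ M' : LimAut Ltr, P Ltr M' → M'.language strict = (witM m).language strict →
      B (2 ^ (2 ^ (m ^ 2))) M'.size) (n : ℕ) :
    cost strict P n ≤ 2 ^ (2 ^ (n ^ 2 + 4)) ∧
      (4160 ≤ n → ∃ K, 2 ^ (2 ^ (n ^ 2 / 40000000)) ≤ K ∧ B K (cost strict P n)) := by
  have hb : ∀ s ∈ {s | ∃ (A : Type) (_ : Finite A) (M : LimAut A), M.size ≤ n ∧
      s = minSize strict (P A) (M.language strict)}, s ≤ 2 ^ (2 ^ (n ^ 2 + 4)) := by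
    rintro s ⟨A, _, M, hM, rfl⟩
    obtain ⟨M', h1, h2, h3⟩ := hup A M
    have h4 : minSize strict (P A) (M.language strict) ≤ M'.size :=
      Nat.sInf_le (s := {s | ∃ M₁ : LimAut A, P A M₁ ∧ M₁.language strict = M.language strict ∧
        M₁.size = s}) ⟨M', h1, h2, rfl⟩
    refine h4.trans (h3.trans ?_)
    apply Nat.pow_le_pow_right (by omega)
    apply Nat.pow_le_pow_right (by omega)
    have := Nat.pow_le_pow_left hM 2
    omega
  refine ⟨csSup_le' hb, fun hn => ?_⟩
  obtain ⟨m, hm1, hm2, hm3⟩ : ∃ m, 1 ≤ m ∧ 2080 * (m + 1) ≤ n ∧ n ≤ 2080 * (m + 2) := by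
    refine ⟨n / 2080 - 1, ?_, ?_, ?_⟩ <;> omega
  refine ⟨2 ^ (2 ^ (m ^ 2)), ?_, ?_⟩
  · apply Nat.pow_le_pow_right (by omega)
    apply Nat.pow_le_pow_right (by omega)
    apply Nat.div_le_of_le_mul
    have h7 : n ≤ 6240 * m := by omega
    have h8 : n ^ 2 ≤ (6240 * m) ^ 2 := Nat.pow_le_pow_left h7 2
    nlinarith
  · have h1 : minSize strict (P Ltr) ((witM m).language strict) ∈
        {s | ∃ (A : Type) (_ : Finite A) (M : LimAut A), M.size ≤ n ∧
          s = minSize strict (P A) (M.language strict)} :=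
      ⟨Ltr, inferInstance, witM m, (size_witM m).trans hm2, rfl⟩
    have h2 : {s | ∃ M : LimAut Ltr, P Ltr M ∧ M.language strict = (witM m).language strict ∧
        M.size = s}.Nonempty := by
      obtain ⟨M', h3, h4, _⟩ := hup Ltr (witM m)
      exact ⟨_, M', h3, h4, rfl⟩
    obtain ⟨M', h3, h4, h5⟩ := Nat.sInf_mem h2
    have h6 := hlow m hm1 M' h3 h4
    have h7 : M'.size = minSize strict (P Ltr) ((witM m).language strict) := h5
    rw [h7] at h6
    exact hB _ _ _ (le_csSup ⟨_, hb⟩ h1) h6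

theorem card_succ_le {A : Type} (M : LimAut A) : Nat.card M.Q + 1 ≤ M.size := by
  unfold LimAut.size
  omega

/-- Deterministic 1-limited automata in time `t |w|`. -/
def DetTime (strict : Prop) (t : ℕ) (A : Type) (M : LimAut A) : Prop :=
  M.Deterministic ∧ LinTime strict M t

/-- Unambiguous 1-limited automata with at most `k` visits of each cell. -/
def UnambFew (strict : Prop) (k : ℕ) (A : Type) (M : LimAut A) : Prop :=
  Unambiguous strict M ∧ FewVisits strict k M

theorem up_time (strict : Prop) (t : ℕ) (ht : 2 ≤ t) (A : Type) [Finite A] (M : LimAut A) :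
    ∃ M' : LimAut A, DetTime strict t A M' ∧
      M'.language strict = M.language strict ∧ M'.size ≤ 2 ^ (2 ^ (M.size ^ 2 + 4)) := by
  obtain ⟨M', h1, h2, h3, h4⟩ := up strict M
  refine ⟨M', ⟨h1, 1, fun w hw T f hf => (h3 w T f hf).trans ?_⟩, h2, h4⟩
  have := Nat.mul_le_mul_right w.length ht
  omega

theorem time_cost (strict : Prop) (t : ℕ) (ht : 2 ≤ t) (n : ℕ) :
    cost strict (DetTime strict t) n ≤ 2 ^ (2 ^ (n ^ 2 + 4)) ∧
      (4160 ≤ n → 2 ^ (2 ^ (n ^ 2 / 40000000)) < 2 * cost strict (DetTime strict t) n ^ (2 * t)) := by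
  obtain ⟨h1, h2⟩ := cost_bounds strict (DetTime strict t) (up_time strict t ht)
    (fun K s => K < 2 * s ^ (2 * t))
    (fun a b c hab h => h.trans_le (Nat.mul_le_mul_left _ (Nat.pow_le_pow_left hab _)))
    (fun m hm M' hM' hL => by
      obtain ⟨hd, N0, hN0⟩ := hM'
      exact (time_lower hm hd hL t N0 hN0).trans_le
        (Nat.mul_le_mul_left _ (Nat.pow_le_pow_left (card_succ_le M') _))) n
  refine ⟨h1, fun hn => ?_⟩
  obtain ⟨K, h3, h4⟩ := h2 hn
  exact h3.trans_lt h4

theorem fun_of_rtg {X : Type*} {r : X → X → Prop} {a b : X} (h : ReflTransGen r a b) :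
    ∃ (T : ℕ) (f : ℕ → X), f 0 = a ∧ f T = b ∧ ∀ t < T, r (f t) (f (t + 1)) := by
  induction h with
  | refl => exact ⟨0, fun _ => a, rfl, rfl, by simp⟩
  | @tail b c _ hbc ih =>
    obtain ⟨T, f, h0, h1, h2⟩ := ih
    refine ⟨T + 1, fun t => if t ≤ T then f t else c, by simp [h0], by simp, fun t ht => ?_⟩
    by_cases h : t + 1 ≤ T
    · simp only [if_pos (show t ≤ T by omega), if_pos h]
      exact h2 t (by omega)
    · have ht' : t = T := by omega
      subst ht'
      simp only [le_refl, if_true, if_neg h]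
      rw [h1]
      exact hbc

theorem acc_of_mem {A : Type} {strict : Prop} {M : LimAut A} {w : List A}
    (hw : w ∈ M.language strict) : ∃ T f, IsAcc strict M w T f := by
  obtain ⟨c, h1, h2, h3⟩ := hw
  obtain ⟨T, f, h4, h5, h6⟩ := fun_of_rtg h1
  exact ⟨T, f, ⟨⟨h4, h6⟩, by rw [h5]; exact h2, by rw [h5]; exact h3⟩⟩

/-- A computation of the subset automaton visits each cell at most once. -/
theorem up_visits (strict : Prop) (k : ℕ) (hk : 1 ≤ k) (A : Type) [Finite A] (M : LimAut A) :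
    ∃ M' : LimAut A, UnambFew strict k A M' ∧
      M'.language strict = M.language strict ∧ M'.size ≤ 2 ^ (2 ^ (M.size ^ 2 + 4)) := by
  refine ⟨pow strict M, ⟨unamb_of_det strict _ pow_det, ?_⟩, pow_language,
    pow_size (by unfold LimAut.size; omega)⟩
  intro w hw
  obtain ⟨T, f, hf⟩ := acc_of_mem hw
  refine ⟨T, f, hf, fun i => ?_⟩
  refine le_trans ?_ hk
  have h1 : {t | t < T ∧ (f t).pos = i} ⊆ {i - 1} := by
    rintro t ⟨h1, h2⟩
    rw [pow_pos hf.toIsComp t h1.le] at h2
    rw [Set.mem_singleton_iff]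
    omega
  exact (Set.ncard_le_ncard h1 (Set.finite_singleton _)).trans (Set.ncard_singleton _).le

theorem visits_cost (strict : Prop) (k : ℕ) (hk : 1 ≤ k) (n : ℕ) :
    cost strict (UnambFew strict k) n ≤ 2 ^ (2 ^ (n ^ 2 + 4)) ∧
      (4160 ≤ n → 2 ^ (2 ^ (n ^ 2 / 40000000)) ≤ cost strict (UnambFew strict k) n ^ (2 * k) + 1) := by
  obtain ⟨h1, h2⟩ := cost_bounds strict (UnambFew strict k) (up_visits strict k hk)
    (fun K s => K ≤ s ^ (2 * k) + 1)
    (fun a b c hab h => h.trans (Nat.add_le_add_right (Nat.pow_le_pow_left hab _) 1))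
    (fun m hm M' hM' hL => (unamb_lower hm hM'.1 hL k hM'.2).trans
        (Nat.add_le_add_right (Nat.pow_le_pow_left (card_succ_le M') _) 1)) n
  refine ⟨h1, fun hn => ?_⟩
  obtain ⟨K, h3, h4⟩ := h2 hn
  exact h3.trans h4

/-- Deterministic 1-limited automata with at most `k` visits of each cell. -/
def DetFew (strict : Prop) (k : ℕ) (A : Type) (M : LimAut A) : Prop :=
  M.Deterministic ∧ FewVisits strict k M

theorem up_det_visits (strict : Prop) (k : ℕ) (hk : 1 ≤ k) (A : Type) [Finite A] (M : LimAut A) :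
    ∃ M' : LimAut A, DetFew strict k A M' ∧
      M'.language strict = M.language strict ∧ M'.size ≤ 2 ^ (2 ^ (M.size ^ 2 + 4)) := by
  refine ⟨pow strict M, ⟨pow_det, ?_⟩, pow_language,
    pow_size (by unfold LimAut.size; omega)⟩
  intro w hw
  obtain ⟨T, f, hf⟩ := acc_of_mem hw
  refine ⟨T, f, hf, fun i => ?_⟩
  refine le_trans ?_ hk
  have h1 : {t | t < T ∧ (f t).pos = i} ⊆ {i - 1} := by
    rintro t ⟨h1, h2⟩
    rw [pow_pos hf.toIsComp t h1.le] at h2
    rw [Set.mem_singleton_iff]
    omega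
  exact (Set.ncard_le_ncard h1 (Set.finite_singleton _)).trans (Set.ncard_singleton _).le

theorem cost_mono (strict : Prop) (P P' : ∀ A : Type, LimAut A → Prop)
    (hPP : ∀ (A : Type) (M : LimAut A), P A M → P' A M)
    (hup : ∀ (A : Type) [Finite A] (M : LimAut A), ∃ M' : LimAut A, P A M' ∧
      M'.language strict = M.language strict ∧ M'.size ≤ 2 ^ (2 ^ (M.size ^ 2 + 4))) (n : ℕ) :
    cost strict P' n ≤ cost strict P n := by
  have hb : ∀ s ∈ {s | ∃ (A : Type) (_ : Finite A) (M : LimAut A), M.size ≤ n ∧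
      s = minSize strict (P A) (M.language strict)}, s ≤ 2 ^ (2 ^ (n ^ 2 + 4)) := by
    rintro s ⟨A, _, M, hM, rfl⟩
    obtain ⟨M', h1, h2, h3⟩ := hup A M
    have h4 : minSize strict (P A) (M.language strict) ≤ M'.size :=
      Nat.sInf_le (s := {s | ∃ M₁ : LimAut A, P A M₁ ∧ M₁.language strict = M.language strict ∧
        M₁.size = s}) ⟨M', h1, h2, rfl⟩
    refine h4.trans (h3.trans ?_)
    apply Nat.pow_le_pow_right (by omega)
    apply Nat.pow_le_pow_right (by omega)
    have := Nat.pow_le_pow_left hM 2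
    omega
  refine csSup_le' ?_
  rintro s ⟨A, hA, M, hM, rfl⟩
  have h2 : {s | ∃ M₁ : LimAut A, P A M₁ ∧ M₁.language strict = M.language strict ∧
      M₁.size = s}.Nonempty := by
    obtain ⟨M', h3, h4, _⟩ := hup A M
    exact ⟨_, M', h3, h4, rfl⟩
  obtain ⟨M', h3, h4, h5⟩ := Nat.sInf_mem h2
  have h6 : minSize strict (P' A) (M.language strict) ≤ M'.size :=
    Nat.sInf_le (s := {s | ∃ M₁ : LimAut A, P' A M₁ ∧ M₁.language strict = M.language strict ∧
      M₁.size = s}) ⟨M', hPP A M' h3, h4, rfl⟩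
  have h7 : M'.size = minSize strict (P A) (M.language strict) := h5
  rw [h7] at h6
  exact h6.trans (le_csSup ⟨_, hb⟩ ⟨A, hA, M, hM, rfl⟩)

theorem visits_costs (strict : Prop) (k : ℕ) (hk : 1 ≤ k) (n : ℕ) :
    cost strict (UnambFew strict k) n ≤ cost strict (DetFew strict k) n ∧
    cost strict (DetFew strict k) n ≤ 2 ^ (2 ^ (n ^ 2 + 4)) ∧
      (4160 ≤ n → 2 ^ (2 ^ (n ^ 2 / 40000000)) ≤ cost strict (UnambFew strict k) n ^ (2 * k) + 1) := by
  refine ⟨cost_mono strict (DetFew strict k) (UnambFew strict k)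
    (fun A M h => ⟨unamb_of_det strict M h.1, h.2⟩) (up_det_visits strict k hk) n, ?_,
    (visits_cost strict k hk n).2⟩
  exact (cost_bounds strict (DetFew strict k) (up_det_visits strict k hk)
    (fun _ _ => True) (fun _ _ _ _ _ => trivial) (fun _ _ _ _ _ => trivial) n).1

end Pool.Agent.NH88.FY
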