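import Mathlib
import Pool.Agent.NH88.FY.Alg
import Pool.Agent.NH88.FX.Fin
import Pool.Agent.NH19.LA.Final
import Pool.Agent.NH19.LA.Sim
import Pool.Agent.NH19.LA.Zip

set_option autoImplicit false

/-!
Few turns: the witness with queries.
-/

namespace Pool.Agent.NH88.FT

open Relation Pool.Agent.H630R2.LA Pool.Agent.R620.KV Pool.Agent.NH19.LA Pool.Agent.NH88.FX
open Pool.Agent.NH88.FA (cod cod_append cod_cons)
open Pool.Agent.NH88.FY (alg_gen)

variable {m : ℕ}

/-- The behaviours of a machine on the words of pieces. -/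
noncomputable def behK (hp : St_pass) (strict : Prop) (i : Fin m) (M : LimAut Ltr) :
    Beh (Pc m) (Option M.Q) where
  d x := pd strict M (cod (κ i) x)
  f x := pf strict M (cod (κ i) x)
  g x := pg strict M (cod (κ i) x)
  d_app x y p := by rw [cod_append]; exact (hp strict _ M _ _ p p).1
  f_app x y p q := by rw [cod_append]; exact (hp strict _ M _ _ p q).2.1
  g_app x y p q := by rw [cod_append]; exact (hp strict _ M _ _ p q).2.2

theorem length_cod_pw (i : Fin m) (y : List (Pc m)) (N : ℕ) :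
    (cod (κ i) (pw N y)).length = N * (cod (κ i) y).length := by
  induction N with
  | zero => simp [pw_zero, cod]
  | succ N ih =>
    rw [pw_succ, cod_append, List.length_append, ih]
    ring

theorem good_pw {y : List (Pc m)} (hy : Good' y) (N : ℕ) : Good' (pw N y) := by
  induction N with
  | zero => rw [pw_zero]; trivial
  | succ N ih =>
    rw [pw_succ]
    exact good_append _ _ _ le_rfl hy ih

theorem cod_pos (i : Fin m) (y : List (Pc m)) (hy : y ≠ []) : 0 < (cod (κ i) y).length := by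
  obtain ⟨X, l, rfl⟩ := List.exists_cons_of_ne_nil hy
  rw [cod_cons, List.length_append]
  have := List.length_pos_iff.2 (κ_ne i X)
  omega

theorem lower (hz : St_zip) (hzF : St_zipF) (hp : St_pass) (hs : St_sim) (strict : Prop)
    (hm : 1 ≤ m) (M : LimAut Ltr) (hd : M.Deterministic) (hf : FewTurns strict M)
    (hL : M.language strict = (witM m).language strict) :
    2 ^ (2 ^ (m ^ 2)) ≤ 2 * (Nat.card M.Q + 1) ^ 4 := by
  classical
  by_contra hcon
  rw [not_le] at hcon
  have hfin := M.finQ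
  let _ : Fintype M.Q := Fintype.ofFinite _
  let i0 : Fin m := ⟨0, hm⟩
  have hlang : ∀ x, cod (κ i0) x ∈ M.language strict ↔ Good' x := by
    intro x
    rw [hL, cod_eq, mem_good]
  have hK : Fintype.card (Option M.Q) = Nat.card M.Q + 1 := by
    rw [Fintype.card_option, Nat.card_eq_fintype_card]
  have hpos : 1 ≤ Nat.card M.Q := by
    have : Nonempty M.Q := ⟨M.q0⟩
    exact Nat.card_pos
  have hcard : 2 + Fintype.card (Option M.Q) + Fintype.card (Option M.Q) ^ 2 +
      Fintype.card (Option M.Q) ^ 3 + Fintype.card (Option M.Q) ^ 4 <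
      2 ^ Fintype.card (Mt m) := by
    rw [hK, card_Mt]
    refine lt_of_le_of_lt ?_ hcon
    generalize Nat.card M.Q = k at hpos
    obtain ⟨j, rfl⟩ : ∃ j, k = j + 1 := ⟨k - 1, by omega⟩
    nlinarith [Nat.zero_le j, Nat.zero_le (j ^ 2), Nat.zero_le (j ^ 3), Nat.zero_le (j ^ 4)]
  obtain ⟨S, y, k, ⟨hy, hy0⟩, hm1, h1, h2, h3⟩ :=
    alg_gen (behK hp strict i0 M) (fun x => Good' x ∧ x ≠ [])
      (fun x y hx hy => ⟨good_append _ _ _ le_rfl hx.1 hy.1, fun h => hx.2 (List.append_eq_nil_iff.1 h).1⟩)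
      ⟨[.inl Finset.univ] ++ [.inr Finset.univ], (good_two _ _).2 ⟨fun _ _ => true, by simp⟩, by simp⟩
      (fun S => [.inl S]) (fun S => [.inr Sᶜ])
      (fun S S' h => ⟨(good_two _ _).2 (by
        obtain ⟨X, h1, h2⟩ := Finset.not_subset.1 h
        exact ⟨X, by simp [h1, h2]⟩), by simp⟩) hcard ⟨none⟩
  have ha := cod_pos i0 y hy0
  set a := (cod (κ i0) y).length with hadef
  obtain ⟨N0, hN0⟩ := hf (2 * (a + 1))
  set N := N0 + 2 with hN
  have hlen : (cod (κ i0) (pw N y)).length = N * a := length_cod_pw i0 y N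
  have hmem : cod (κ i0) (pw N y) ∈ M.language strict := by
    rw [hlang]
    exact good_pw hy N
  obtain ⟨T, f, hacc, hturn⟩ := hN0 _ hmem (by
    rw [hlen]
    have : N0 * 1 ≤ N * a := Nat.mul_le_mul (by omega) ha
    omega)
  have hturn' : turns (cod (κ i0) (pw N y)).length T f + 1 < N := by
    by_contra hc
    rw [not_lt] at hc
    have h4 : N ≤ 2 * turns (cod (κ i0) (pw N y)).length T f := by omega
    rw [hlen] at hturn h4
    have h5 : (a + 1) * N ≤ (a + 1) * (2 * turns (N * a) T f) := Nat.mul_le_mul_left _ h4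
    have h6 : (a + 1) * N = N * a + N := by ring
    have h7 : (a + 1) * (2 * turns (N * a) T f) = 2 * (a + 1) * turns (N * a) T f := by ring
    omega
  obtain ⟨i, hi1, hi2, hi3⟩ := exists_block T f N a _ ha hlen hturn'
  have hsplit : pw N y = pw i y ++ y ++ pw (N - 1 - i) y := by
    have : N = i + (1 + (N - 1 - i)) := by omega
    conv_lhs => rw [this]
    rw [pw_add, pw_add, List.append_assoc]
    congr 1
    rw [pw_succ, pw_zero, List.append_nil]
  have hcode : cod (κ i0) (pw N y) =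
      cod (κ i0) (pw i y) ++ cod (κ i0) y ++ cod (κ i0) (pw (N - 1 - i) y) := by
    rw [hsplit, cod_append, cod_append]
  have hlen_i : (cod (κ i0) (pw i y)).length = i * a := length_cod_pw i0 y i
  have hF := hzF strict _ M _ T f
    (Set.Ico ((cod (κ i0) (pw i y)).length + 1)
      ((cod (κ i0) (pw i y)).length + 1 + (cod (κ i0) y).length))
    hacc (by
      rw [hlen_i, Set.mem_Ico]
      have : 1 * 1 ≤ i * a := Nat.mul_le_mul hi1 ha
      omega) (by
      rw [hlen_i]
      exact hi3)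
  rw [hcode] at hF
  have hZ := hs strict _ M hd (cod (κ i0) (pw i y)) (cod (κ i0) y)
    (cod (κ i0) (y ++ pw k ([Sum.inl S] ++ [Sum.inr Sᶜ] ++ y)))
    (cod (κ i0) (pw (N - 1 - i) y)) T (by
      intro h
      rw [h] at hadef
      simp at hadef
      omega) h1 h2 h3 hF
  rw [← hz, ← cod_append, ← cod_append, hlang] at hZ
  obtain ⟨k', rfl⟩ : ∃ k', k = k' + 1 := ⟨k - 1, by omega⟩
  rw [pw_succ] at hZ
  obtain ⟨X, h4, h5⟩ := good_mid S Sᶜ _ (pw i y ++ y)
    (y ++ pw k' ([Sum.inl S] ++ [Sum.inr Sᶜ] ++ y) ++ pw (N - 1 - i) y) le_rfl (by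
      have e : pw i y ++ y ++ Sum.inl S :: Sum.inr Sᶜ ::
          (y ++ pw k' ([Sum.inl S] ++ [Sum.inr Sᶜ] ++ y) ++ pw (N - 1 - i) y) =
          pw i y ++ (y ++ ([Sum.inl S] ++ [Sum.inr Sᶜ] ++ y ++
            pw k' ([Sum.inl S] ++ [Sum.inr Sᶜ] ++ y))) ++ pw (N - 1 - i) y := by
        simp only [List.append_assoc, List.cons_append, List.nil_append]
      rw [e]
      exact hZ)
  exact (Finset.mem_compl.1 h5) h4

end Pool.Agent.NH88.FT
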