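import Mathlib
import Pool.Agent.NH88.FY.Cost
import Pool.Agent.NH88.FY.Turn

set_option autoImplicit false
set_option exponentiation.threshold 100000000

/-!
The cost function for deterministic 1-limited automata with few turns.
-/

namespace Pool.Agent.NH88.FY

open Relation Pool.Agent.H630R2.LA Pool.Agent.R620.KV Pool.Agent.NH19.LA Pool.Agent.NH88.FX

/-- Deterministic 1-limited automata with a sublinear number of turns. -/
def DetTurns (strict : Prop) (A : Type) (M : LimAut A) : Prop :=
  M.Deterministic ∧ FewTurns strict M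

theorem up_turns (strict : Prop) (A : Type) [Finite A] (M : LimAut A) :
    ∃ M' : LimAut A, DetTurns strict A M' ∧
      M'.language strict = M.language strict ∧ M'.size ≤ 2 ^ (2 ^ (M.size ^ 2 + 4)) := by
  refine ⟨pow strict M, ⟨pow_det, ?_⟩, pow_language,
    pow_size (by unfold LimAut.size; omega)⟩
  intro c
  refine ⟨0, fun w hw _ => ?_⟩
  obtain ⟨T, f, hf⟩ := acc_of_mem hw
  refine ⟨T, f, hf, ?_⟩
  have h0 : turns w.length T f = 0 := by
    unfold turns
    rw [Set.ncard_eq_zero ((Set.finite_lt_nat T).subset fun t ht => by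
      have := ht.1
      show t < T
      omega)]
    ext t
    simp only [Set.mem_setOf_eq, Set.mem_empty_iff_false, iff_false, not_and]
    intro h1 h2
    rw [pow_pos hf.toIsComp (t + 2) h1, pow_pos hf.toIsComp t (by omega)] at h2
    omega
  rw [h0, Nat.mul_zero]
  exact Nat.zero_le _

theorem turns_cost (strict : Prop) (n : ℕ) :
    cost strict (DetTurns strict) n ≤ 2 ^ (2 ^ (n ^ 2 + 4)) ∧
      (4160 ≤ n → 2 ^ (2 ^ (n ^ 2 / 40000000)) ≤ 2 * cost strict (DetTurns strict) n ^ 4) := by
  obtain ⟨h1, h2⟩ := cost_bounds strict (DetTurns strict) (up_turns strict)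
    (fun K s => K ≤ 2 * s ^ 4)
    (fun a b c hab h => h.trans (Nat.mul_le_mul_left _ (Nat.pow_le_pow_left hab _)))
    (fun m hm M' hM' hL => (FT.lower zip_iff zip_F pass_laws sim strict hm M' hM'.1 hM'.2 hL).trans
        (Nat.mul_le_mul_left _ (Nat.pow_le_pow_left (card_succ_le M') _))) n
  refine ⟨h1, fun hn => ?_⟩
  obtain ⟨K, h3, h4⟩ := h2 hn
  exact h3.trans h4

end Pool.Agent.NH88.FY
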